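import Mathlib
set_option maxHeartbeats 400000
open Filter Set Topology Cardinal
namespace Pool.Agent.H.MP_fb02e9_lc

abbrev C := ℕ → Bool

lemma cyl {V : Set C} {y : C} (h : V ∈ 𝓝 y) : ∃ J : Finset ℕ, ∀ z : C, (∀ m ∈ J, z m = y m) → z ∈ V := by
  rw [nhds_pi, Filter.mem_pi'] at h
  obtain ⟨J, t, h1, h2⟩ := h
  refine ⟨J, fun z hz => h2 fun m hm => ?_⟩
  rw [hz m hm]
  exact mem_of_mem_nhds (h1 m)

section
variable (π : ℕ → ℕ) (hπ : ∀ n, {m | π m < n}.Finite)
include hπ

lemma key {U : Set C} (h1 : IsOpen U) (h2 : Dense U) (n : ℕ) :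
    ∃ n' > n, ∃ y : C, ∀ x : C, (∀ m, n ≤ π m → π m < n' → x m = y m) → x ∈ U := by
  let τ : C → C ≃ₜ C := fun s =>
    { toFun := fun z m => xor (z m) (s m)
      invFun := fun z m => xor (z m) (s m)
      left_inv := fun z => by funext m; simp
      right_inv := fun z => by funext m; simp
      continuous_toFun := continuous_pi fun m =>
        (continuous_of_discreteTopology (f := fun b => xor b (s m))).comp (continuous_apply m)
      continuous_invFun := continuous_pi fun m =>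
        (continuous_of_discreteTopology (f := fun b => xor b (s m))).comp (continuous_apply m) }
  let S : Set C := {s | ∀ m, n ≤ π m → s m = false}
  have hS : S.Finite := by
    have := (hπ n).to_subtype
    refine Set.Finite.of_finite_image (f := fun (s : C) (m : {m | π m < n}) => s m) (Set.toFinite _) ?_
    intro s hs t ht hst
    funext m
    by_cases hm : π m < n
    · exact congrFun hst ⟨m, hm⟩
    · rw [hs m (not_lt.mp hm), ht m (not_lt.mp hm)]
  have ho : ∀ s ∈ S, IsOpen (τ s ⁻¹' U) := fun s _ => h1.preimage (τ s).continuous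
  obtain ⟨y, hy⟩ := (dense_biInter_of_isOpen ho hS.countable
    fun s _ => h2.preimage (τ s).isOpenMap).nonempty
  obtain ⟨J, hJ⟩ := cyl ((hS.isOpen_biInter ho).mem_nhds hy)
  refine ⟨J.sup π + n + 1, by omega, y, fun x hx => ?_⟩
  let s : C := fun m => if π m < n then xor (x m) (y m) else false
  have hs : s ∈ S := fun m hm => if_neg (not_lt.mpr hm)
  have h3 := hJ (τ s x) (fun m hm => by
    have := Finset.le_sup (f := π) hm
    show xor (x m) (s m) = y m
    by_cases h4 : π m < n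
    · simp only [s, if_pos h4]; simp
    · simp only [s, if_neg h4]
      rw [hx m (not_lt.mp h4) (by omega)]; simp)
  have h4 : τ s (τ s x) ∈ U := mem_iInter₂.mp h3 s hs
  have h5 : τ s (τ s x) = x := (τ s).left_inv x
  rwa [h5] at h4

lemma meagre_char {M : Set C} (hM : IsMeagre M) : ∃ (h : ℕ → ℕ) (y : ℕ → C), StrictMono h ∧
    ∀ x : C, {k | ∀ m, h k ≤ π m → π m < h (k+1) → x m = y k m}.Infinite → x ∉ M := by
  obtain ⟨S, h1, h2, h3, h4⟩ := mem_residual_iff.mp hM
  obtain ⟨U, hU⟩ := (h3.insert Set.univ).exists_eq_range (insert_nonempty _ _)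
  have hU1 : ∀ j, IsOpen (U j) ∧ Dense (U j) := by
    intro j
    have : U j ∈ insert Set.univ S := hU ▸ mem_range_self j
    rcases this with h | h
    · rw [h]; exact ⟨isOpen_univ, dense_univ⟩
    · exact ⟨h1 _ h, h2 _ h⟩
  choose nx hn y hy using fun k n => key π hπ (U := ⋂ j ∈ Iic k, U j)
    ((finite_Iic k).isOpen_biInter fun j _ => (hU1 j).1)
    (dense_biInter_of_isOpen (fun j _ => (hU1 j).1) (to_countable _) fun j _ => (hU1 j).2) n
  let h : ℕ → ℕ := fun k => Nat.rec 0 (fun k a => nx k a) k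
  refine ⟨h, fun k => y k (h k), strictMono_nat_of_lt_succ fun k => hn k (h k), fun x hx => h4 ?_⟩
  intro V hV
  obtain ⟨j, rfl⟩ : V ∈ range U := hU ▸ mem_insert_of_mem _ hV
  obtain ⟨k, hk1, hk2⟩ := hx.exists_gt j
  exact mem_iInter₂.mp (hy k (h k) x hk1) j hk2.le

lemma match_res (h : ℕ → ℕ) (hh : StrictMono h) (y : ℕ → C) (Y : Set ℕ) (hY : Y.Infinite) :
    {x : C | {k | k ∈ Y ∧ ∀ m, h k ≤ π m → π m < h (k+1) → x m = y k m}.Infinite} ∈ residual C := by
  classical
  have h1 : ∀ N, (⋃ k ∈ {k | k ∈ Y ∧ N < k}, {x : C | ∀ m, h k ≤ π m → π m < h (k+1) → x m = y k m})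
      ∈ residual C := by
    intro N
    apply residual_of_dense_open
    · refine isOpen_biUnion fun k _ => ?_
      have : {x : C | ∀ m, h k ≤ π m → π m < h (k+1) → x m = y k m} =
          ⋂ m ∈ {m | h k ≤ π m ∧ π m < h (k+1)}, {x : C | x m = y k m} := by
        ext x; simp
      rw [this]
      refine ((hπ (h (k+1))).subset fun m hm => hm.2).isOpen_biInter fun m _ => ?_
      exact (isOpen_discrete {y k m}).preimage (f := fun x : C => x m) (continuous_apply m)
    · rw [dense_iff_inter_open]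
      rintro V hV ⟨z, hz⟩
      obtain ⟨J, hJ⟩ := cyl (hV.mem_nhds hz)
      obtain ⟨k, hk1, hk2⟩ := hY.exists_gt (J.sup π + N)
      refine ⟨fun m => if h k ≤ π m then y k m else z m, hJ _ fun m hm => ?_,
        mem_biUnion (show k ∈ {k | k ∈ Y ∧ N < k} from ⟨hk1, by omega⟩) fun m h2 _ => if_pos h2⟩
      have := Finset.le_sup (f := π) hm
      have := hh.id_le k
      exact if_neg (by simp only [id] at this; omega)
  refine mem_of_superset (countable_iInter_mem.mpr h1) fun x hx => ?_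
  refine Set.infinite_of_forall_exists_gt fun N => ?_
  obtain ⟨k, hk1, hk2⟩ := mem_iUnion₂.mp (mem_iInter.mp hx N)
  exact ⟨k, ⟨hk1.1, hk2⟩, hk1.2⟩

end

lemma meets {X R : Set C} (hX : ¬ IsMeagre X) (hR : R ∈ residual C) : ∃ x ∈ X, x ∈ R := by
  by_contra h
  push Not at h
  exact hX (mem_of_superset hR fun x hx hx2 => h x hx2 hx)

lemma unbounded {X : Set C} (hX : ¬ IsMeagre X) : ∃ f : X → ℕ → ℕ, (∀ x, Monotone (f x)) ∧
    ∀ g : ℕ → ℕ, ∃ x, ∃ᶠ n in atTop, g n < f x n := by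
  refine ⟨fun x n => (Finset.range (n+1)).sup fun j => sInf {m | j ≤ m ∧ x.1 m = true},
    fun x a b hab => Finset.sup_mono (Finset.range_mono (by omega)), fun g => ?_⟩
  let h : ℕ → ℕ := fun k => Nat.rec 0 (fun _ a => g a + a + 1) k
  have hs : ∀ k, h (k+1) = g (h k) + h k + 1 := fun k => rfl
  have hh : StrictMono h := strictMono_nat_of_lt_succ fun k => by rw [hs]; omega
  have hπ : ∀ n, {m : ℕ | id m < n}.Finite := fun n => finite_Iio n
  obtain ⟨x, hx, h1, h2⟩ := meets hX (inter_mem (match_res id hπ h hh (fun _ _ => false) Set.univ infinite_univ)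
    (match_res id hπ h hh (fun _ _ => true) Set.univ infinite_univ))
  refine ⟨⟨x, hx⟩, frequently_atTop.mpr fun N => ?_⟩
  obtain ⟨k, hk1, hk2⟩ := h1.exists_gt N
  obtain ⟨l, hl1, hl2⟩ := h2.exists_gt k
  refine ⟨h k, hk2.le.trans (hh.id_le k), ?_⟩
  refine lt_of_lt_of_le ?_ (Finset.le_sup (f := fun j => sInf {m | j ≤ m ∧ x m = true})
    (Finset.self_mem_range_succ (h k)))
  have h3 := Nat.sInf_mem (s := {m | h k ≤ m ∧ x m = true})
    ⟨h l, (hh hl2).le, hl1.2 _ le_rfl (hh (Nat.lt_succ_self l))⟩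
  by_contra h4
  have h5 := hk1.2 _ h3.1 (by rw [hs]; simp only [id]; omega)
  rw [h3.2] at h5
  cases h5

lemma step (𝓕 : Set (Set ℕ)) (h1 : ∀ F ∈ 𝓕, F.Infinite)
    (h2 : ∀ s : 𝓕 → ℕ → ℕ, ∃ g : ℕ → ℕ, ∀ F, ∃ᶠ n in atTop, s F n < g n) (t : ℕ → ℕ) :
    ∃ D : Set ℕ, (∀ F ∈ 𝓕, (F ∩ D).Infinite) ∧ {n | ∀ m, n ≤ m → m ≤ t n → m ∉ D}.Infinite := by
  choose nx hn1 hn2 using fun (F : 𝓕) m => (h1 F F.2).exists_gt m
  let T : ℕ → ℕ := fun n => (Finset.range (n+1)).sup t + n
  have hT : ∀ a b, a ≤ b → t a ≤ T b := fun a b hab =>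
    (Finset.le_sup (f := t) (Finset.mem_range.mpr (by omega))).trans (Nat.le_add_right _ _)
  have hT2 : ∀ a, a ≤ T a := fun a => Nat.le_add_left _ _
  obtain ⟨g, hg⟩ := h2 fun F n => nx F (T (nx F (T n)))
  let p : ℕ → ℕ := fun k => Nat.rec 0 (fun _ a => (Finset.range (a+1)).sup g + a + 1) k
  have hp : ∀ k, p (k+1) = (Finset.range (p k + 1)).sup g + p k + 1 := fun k => rfl
  have hm : StrictMono p := strictMono_nat_of_lt_succ fun k => by rw [hp]; omega
  refine ⟨{m | ∀ k, ¬ (p k ≤ m ∧ m ≤ t (p k))}, fun F hF => ?_, ?_⟩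
  · refine Set.infinite_of_forall_exists_gt fun N => ?_
    obtain ⟨n, hN, hn⟩ := frequently_atTop.mp (hg ⟨F, hF⟩) N
    have hex : ∃ k : ℕ, n < p k := ⟨n + 1, lt_of_lt_of_le (Nat.lt_succ_self n) (hm.id_le _)⟩
    obtain ⟨k, k1, k2⟩ : ∃ k : ℕ, n < p k ∧ ∀ j < k, p j ≤ n := by
      obtain ⟨k, h3, h4⟩ := (wellFounded_lt (α := ℕ)).has_min {k | n < p k} hex
      exact ⟨k, h3, fun j hj => not_lt.mp fun h5 => h4 j h5 hj⟩
    have a1 := hn2 ⟨F, hF⟩ (T n)
    have a2 := hn2 ⟨F, hF⟩ (T (nx ⟨F, hF⟩ (T n)))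
    set a := nx ⟨F, hF⟩ (T n) with ha
    set b := nx ⟨F, hF⟩ (T a) with hb
    have a3 := hT2 n
    have a4 := hT2 a
    rcases lt_or_ge a (p k) with h | h
    · refine ⟨a, ⟨hn1 ⟨F, hF⟩ _, fun j hj => ?_⟩, by omega⟩
      rcases lt_or_ge j k with h3 | h3
      · have := hT _ _ (k2 j h3); omega
      · have := hm.monotone h3; omega
    · refine ⟨b, ⟨hn1 ⟨F, hF⟩ _, fun j hj => ?_⟩, by omega⟩
      rcases le_or_gt j k with h3 | h3
      · have := hT _ _ ((hm.monotone h3).trans h); omega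
      · have b1 := hm.monotone (Nat.succ_le_of_lt h3)
        have b2 : g n ≤ (Finset.range (p k + 1)).sup g :=
          Finset.le_sup (f := g) (Finset.mem_range.mpr (by omega))
        have b3 := hp k
        simp only [Nat.succ_eq_add_one] at b1
        omega
  · refine (Set.infinite_range_of_injective hm.injective).mono ?_
    rintro _ ⟨k, rfl⟩ m h3 h4 h5
    exact h5 k ⟨h3, h4⟩

def Dom (T : Set (ℕ → ℕ)) : Prop := ∀ g : ℕ → ℕ, ∃ f ∈ T, ∀ᶠ n in atTop, g n ≤ f n

def NF (ι : Type) (D : ι → Set ℕ) : Prop :=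
  (∀ s : Finset ι, {n | ∀ i ∈ s, n ∈ D i}.Infinite) ∧
    ∀ h : ℕ → ℕ, StrictMono h → ∃ i, {k | ∀ n, h k ≤ n → n < h (k+1) → n ∉ D i}.Infinite

lemma caseB (T : Set (ℕ → ℕ)) (hT : Dom T) (hmin : ∀ T', Dom T' → #T ≤ #T') :
    ∃ D : (#T).ord.ToType → Set ℕ, NF _ D := by
  classical
  have hinf : ℵ₀ ≤ #T := by
    rw [aleph0_le_mk_iff, Set.infinite_coe_iff]
    intro hfin
    obtain ⟨f, hf, h⟩ := hT fun n => hfin.toFinset.sup (fun f => f n) + 1
    obtain ⟨n, hn⟩ := h.exists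
    have := Finset.le_sup (f := fun f : ℕ → ℕ => f n) (hfin.mem_toFinset.mpr hf)
    omega
  obtain ⟨e⟩ : Nonempty ((#T).ord.ToType ≃ T) := Cardinal.eq.mp (mk_ord_toType _)
  have ex : ∀ (w : (#T).ord.ToType) (prev : Iio w → Set ℕ), ∃ D : Set ℕ,
      (∀ s : Finset (Iio w), {n | ∀ i ∈ s, n ∈ prev i}.Infinite →
        ({n | ∀ i ∈ s, n ∈ prev i} ∩ D).Infinite) ∧
      {n | ∀ m, n ≤ m → m ≤ (e w).1 n → m ∉ D}.Infinite := by
    intro w prev
    obtain ⟨D, h1, h2⟩ := step {F | F.Infinite ∧ ∃ s : Finset (Iio w), {n | ∀ i ∈ s, n ∈ prev i} = F}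
      (fun F hF => hF.1) (by
        intro s
        have hlt : #(range s) < #T := by
          refine lt_of_le_of_lt mk_range_le (lt_of_le_of_lt (mk_le_mk_of_subset
            (t := range fun s : Finset (Iio w) => {n | ∀ i ∈ s, n ∈ prev i}) fun F hF => hF.2)
            (lt_of_le_of_lt mk_range_le ?_))
          rcases finite_or_infinite (Iio w) with h | h
          · exact lt_of_lt_of_le (lt_aleph0_of_finite _) hinf
          · rw [mk_finset_of_infinite]
            simpa using mk_Iio_lt w (by simp)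
        by_contra h3
        push Not at h3
        refine absurd (hmin (range s) fun g => ?_) (not_le.mpr hlt)
        obtain ⟨F, hF⟩ := h3 g
        exact ⟨s F, mem_range_self F, by simpa using hF⟩) (e w).1
    exact ⟨D, fun s hs => h1 _ ⟨hs, s, rfl⟩, h2⟩
  choose G hG1 hG2 using ex
  let D : (#T).ord.ToType → Set ℕ := (wellFounded_lt).fix fun w rec => G w fun i => rec i i.2
  have hD : ∀ w, D w = G w fun i => D i := fun w => WellFounded.fix_eq _ _ _
  refine ⟨D, fun s => ?_, fun h hh => ?_⟩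
  · induction s using Finset.induction_on_max with
    | empty => simpa using infinite_univ
    | insert a s ha ih =>
      have h1 : {n | ∀ i ∈ s.subtype (· ∈ Iio a), n ∈ D i} = {n | ∀ i ∈ s, n ∈ D i} := by
        ext n
        simp only [mem_ofPred_eq, Finset.mem_subtype]
        exact ⟨fun h i hi => h ⟨i, ha i hi⟩ hi, fun h i hi => h i hi⟩
      have h2 := hG1 a (fun i => D i) (s.subtype (· ∈ Iio a)) (h1 ▸ ih)
      rw [h1, ← hD] at h2
      refine h2.mono fun n hn i hi => ?_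
      rcases Finset.mem_insert.mp hi with rfl | h3
      · exact hn.2
      · exact hn.1 i h3
  · obtain ⟨f, hf, h1⟩ := hT fun n => h (n+1)
    refine ⟨e.symm ⟨f, hf⟩, ?_⟩
    have h2 := hG2 (e.symm ⟨f, hf⟩) fun i => D i
    rw [← hD, e.apply_symm_apply] at h2
    obtain ⟨N, hN⟩ := eventually_atTop.mp h1
    refine (h2.sdiff (finite_Iio N)).mono fun k hk n h3 h4 => ?_
    exact hk.1 n ((hh.id_le k).trans h3) (h4.le.trans (hN k (not_lt.mp hk.2)))

lemma exists_NF {X : Set C} (hX : ¬ IsMeagre X) (hI : X.Infinite) :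
    ∃ (ι : Type) (D : ι → Set ℕ), #ι ≤ #X ∧ NF ι D := by
  classical
  obtain ⟨f, hf1, hf2⟩ := unbounded hX
  by_cases hc : Dom (range fun (s : Finset X) n => s.sup fun x => f x n)
  · have hne : ({c | ∃ T, Dom T ∧ #T = c} : Set Cardinal.{0}).Nonempty := ⟨_, _, hc, rfl⟩
    obtain ⟨T, hT1, hT2⟩ := csInf_mem hne
    have hmin : ∀ T', Dom T' → #T ≤ #T' := fun T' h => hT2 ▸ csInf_le' ⟨T', h, rfl⟩
    obtain ⟨D, hD⟩ := caseB T hT1 hmin
    refine ⟨_, D, ?_, hD⟩
    have := hI.to_subtype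
    rw [mk_ord_toType]
    exact (hmin _ hc).trans (mk_range_le.trans (mk_finset_of_infinite _).le)
  · unfold Dom at hc
    push Not at hc
    obtain ⟨g, hg⟩ := hc
    refine ⟨X, fun x => {n | f x n < g n}, le_rfl, fun s => ?_, fun h hh => ?_⟩
    · have h1 := hg _ ⟨s, rfl⟩
      rw [← Nat.cofinite_eq_atTop] at h1
      refine Set.infinite_iff_frequently_cofinite.mpr (h1.mono fun n hn x hx => ?_)
      exact lt_of_le_of_lt (Finset.le_sup (f := fun x => f x n) hx) hn
    · obtain ⟨x, hx⟩ := hf2 fun k => (Finset.range (h (k+1))).sup g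
      refine ⟨x, ?_⟩
      rw [← Nat.cofinite_eq_atTop] at hx
      refine Set.infinite_iff_frequently_cofinite.mpr (hx.mono fun k hk n h1 h2 h3 => ?_)
      have a1 := hf1 x ((hh.id_le k).trans h1)
      have a2 := Finset.le_sup (f := g) (Finset.mem_range.mpr h2)
      simp only [id, mem_ofPred_eq] at a1 h3
      omega

theorem main {X : Set C} (hX : ¬ IsMeagre X) : ∃ 𝒜 : Set C, #𝒜 ≤ #X ∧ ¬ IsMeagre 𝒜 ∧
    ∀ F G : Finset C, ↑F ⊆ 𝒜 → ↑G ⊆ 𝒜 → Disjoint F G →
      {n | (∀ a ∈ F, a n = true) ∧ ∀ b ∈ G, b n = false}.Infinite := by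
  classical
  have hI : X.Infinite := by
    intro hfin
    refine hX (IsMeagre.mono (fun x hx => mem_biUnion hx (mem_singleton x))
      (isMeagre_biUnion hfin.countable fun x _ => ?_))
    refine mem_of_superset (match_res id (fun n => finite_Iio n) id strictMono_id
      (fun _ m => !x m) Set.univ infinite_univ) ?_
    rintro z hz rfl
    obtain ⟨k, hk⟩ := hz.nonempty
    simpa using hk.2 k le_rfl (Nat.lt_succ_self k)
  obtain ⟨ι, D, hι, hD1, hD2⟩ := exists_NF hX hI
  have hle : #(ι × X) ≤ #X := by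
    have := hI.to_subtype
    simp only [mk_prod, lift_id]
    exact (mul_le_mul_left hι _).trans (mul_eq_self (aleph0_le_mk _)).le
  obtain ⟨r⟩ : Nonempty (ι × X ↪ C) := (Cardinal.le_def _ _).mp (hle.trans (mk_set_le X))
  obtain ⟨den⟩ := nonempty_denumerable (Σ n : ℕ, ((Fin n → Bool) → Bool))
  let e : ℕ ≃ Σ n : ℕ, ((Fin n → Bool) → Bool) := (Denumerable.eqv _).symm
  have hπ : ∀ n, {m | (e m).1 < n}.Finite := by
    intro n
    refine Set.Finite.preimage (f := e) (s := {p | p.1 < n}) e.injective.injOn ?_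
    refine ((finite_Iio n).biUnion (t := fun k => range (Sigma.mk (β := fun n => (Fin n → Bool) → Bool) k))
      fun k _ => finite_range _).subset fun p hp => mem_biUnion hp ⟨p.2, rfl⟩
  let x' : ι × X → C := fun p m =>
    if (e m).1 ∈ D p.1 then (e m).2 (fun j => r p j) else p.2.1 m
  refine ⟨range x', mk_range_le.trans hle, fun hM => ?_, fun F G hF hG hFG => ?_⟩
  · obtain ⟨h, y, hh, hy⟩ := meagre_char (fun m => (e m).1) hπ hM
    obtain ⟨i, hi⟩ := hD2 h hh
    obtain ⟨x, hx1, hx2⟩ := meets hX (match_res (fun m => (e m).1) hπ h hh y _ hi)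
    refine hy (x' (i, ⟨x, hx1⟩)) (Set.Infinite.mono (fun k hk m h1 h2 => ?_) hx2) (mem_range_self _)
    simp only [x', if_neg (hk.1 _ h1 h2)]
    exact hk.2 m h1 h2
  · have hσ : ∀ a : C, a ∈ range x' → ∃ p, x' p = a := fun a ha => ha
    have : Nonempty (ι × X) := ⟨((hD2 id strictMono_id).choose, ⟨_, hI.nonempty.choose_spec⟩)⟩
    choose! σ hσ using hσ
    have hsep : ∀ a ∈ F, ∀ b ∈ G, ∀ᶠ n in atTop, (fun j : Fin n => r (σ a) j) ≠ fun j : Fin n => r (σ b) j := by
      intro a ha b hb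
      have h1 : r (σ a) ≠ r (σ b) := fun h => Finset.disjoint_left.mp hFG ha (by
        rw [← hσ a (hF ha), r.injective h, hσ b (hG hb)]; exact hb)
      obtain ⟨j, hj⟩ := Function.ne_iff.mp h1
      filter_upwards [eventually_gt_atTop j] with n hn h2 using hj (congrFun h2 ⟨j, hn⟩)
    have h1 : ∀ᶠ n in atTop, ∀ a ∈ F, ∀ b ∈ G,
        (fun j : Fin n => r (σ a) j) ≠ fun j : Fin n => r (σ b) j :=
      (Filter.eventually_all_finset F).mpr fun a ha =>
        (Filter.eventually_all_finset G).mpr fun b hb => hsep a ha b hb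
    obtain ⟨N, hN⟩ := eventually_atTop.mp h1
    refine Set.Infinite.of_image (fun m => (e m).1)
      (((hD1 ((F ∪ G).image fun a => (σ a).1)).sdiff (finite_Iio N)).mono fun n hn => ?_)
    have h2 : ∀ a ∈ F ∪ G, n ∈ D (σ a).1 := fun a ha => hn.1 _ (Finset.mem_image_of_mem _ ha)
    refine ⟨e.symm ⟨n, fun u => decide (∃ a ∈ F, (fun j : Fin n => r (σ a) j) = u)⟩, ⟨?_, ?_⟩, by simp⟩
    · intro a ha
      rw [← hσ a (hF ha)]
      simp only [x']
      rw [e.apply_symm_apply, if_pos (h2 a (Finset.mem_union_left _ ha))]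
      exact decide_eq_true ⟨a, ha, rfl⟩
    · intro b hb
      rw [← hσ b (hG hb)]
      simp only [x']
      rw [e.apply_symm_apply, if_pos (h2 b (Finset.mem_union_right _ hb))]
      exact decide_eq_false fun ⟨a, ha, h3⟩ => hN n (not_lt.mp hn.2) a ha b hb h3

end Pool.Agent.H.MP_fb02e9_lc
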